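import Pool.Agent.Helper95.OD.St

set_option autoImplicit false

namespace Pool.Agent.Helper71.OD

open Pool.Agent.Helper95.OD Finset
open scoped Classical

lemma cc_not {m r : ℕ} {c b : Cl m r} (h : ¬ Cc c b) (h1 : b.1 = c.1) :
    b = c ∨ (b.2.1 ≠ c.2.1 ∧ b.2.2 ≠ c.2.2) := by
  by_cases hbc : b = c
  · exact Or.inl hbc
  · right
    constructor
    · intro h2
      exact h ⟨h1.symm, fun h3 => hbc h3.symm, Or.inl h2.symm⟩
    · intro h2
      exact h ⟨h1.symm, fun h3 => hbc h3.symm, Or.inr h2.symm⟩

theorem hND : ND := by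
  intro m r B M c hB hM hcM
  set F := M.filter (fun b => b.1 = c.1) with hF
  set Y : Finset (Fin r) := univ \ F.image (fun b => b.2.2) with hY
  have hYc : r - F.card ≤ Y.card := by
    have h1 : Y.card = r - (F.image (fun b => b.2.2)).card := by
      rw [hY, card_sdiff_of_subset (subset_univ _), card_univ, Fintype.card_fin]
    have h2 : (F.image (fun b => b.2.2)).card ≤ F.card := card_image_le
    omega
  refine (Nat.mul_le_mul_left _ hYc).trans ?_
  rw [← card_product]
  -- the map
  set f : Cfg m r × Fin r → Cfg m r :=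
    fun p => Function.update p.1 c.1 (Equiv.swap c.2.2 p.2 * p.1 c.1) with hf
  have fe : ∀ p : Cfg m r × Fin r, f p c.1 = Equiv.swap c.2.2 p.2 * p.1 c.1 := by
    intro p; simp [hf]
  have fn : ∀ (p : Cfg m r × Fin r) (e : Pr m), e ≠ c.1 → f p e = p.1 e := by
    intro p e he; simp [hf, Function.update_of_ne he]
  refine card_le_card_of_injOn f ?_ ?_
  · rintro ⟨σ, y'⟩ hp
    rw [mem_coe, mem_product] at hp
    obtain ⟨h1, h2⟩ := hp
    simp only at h1 h2
    rw [mem_inter] at h1
    obtain ⟨hA, hE⟩ := h1
    simp only [Av, Ev, mem_filter, mem_univ, true_and] at hA hE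
    have hc : Pres σ c := hE c (mem_insert_self _ _)
    have hc' : σ c.1 c.2.1 = c.2.2 := hc
    rw [mem_coe, mem_inter]
    simp only [Av, Ev, mem_filter, mem_univ, true_and]
    refine ⟨?_, ?_⟩
    · intro N hN
      by_contra hcon
      push Not at hcon
      obtain ⟨b, hb, hbσ⟩ := hA N hN
      refine hbσ ?_
      have h3 := hcon b hb
      by_cases he : b.1 = c.1
      · rcases cc_not (hB N hN b hb) he with h4 | ⟨h4, h5⟩
        · rw [h4]; exact hc
        · unfold Pres at h3 ⊢
          rw [he] at h3 ⊢
          rw [fe] at h3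
          simp only [Equiv.Perm.mul_apply] at h3
          have h6 : σ c.1 b.2.1 ≠ c.2.2 := by
            intro h7
            exact h4 ((σ c.1).injective (h7.trans hc'.symm))
          by_cases h8 : σ c.1 b.2.1 = y'
          · rw [h8, Equiv.swap_apply_right] at h3
            exact absurd h3.symm h5
          · rw [Equiv.swap_apply_of_ne_of_ne h6 h8] at h3
            exact h3
      · unfold Pres at h3 ⊢
        rw [fn _ _ he] at h3
        exact h3
    · intro b hb
      have h3 : Pres σ b := hE b (mem_insert_of_mem hb)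
      by_cases he : b.1 = c.1
      · rcases cc_not (hM b hb) he with h4 | ⟨h4, h5⟩
        · exact absurd (h4 ▸ hb) hcM
        · have h6 : b.2.2 ≠ y' := by
            intro h7
            rw [hY, mem_sdiff] at h2
            refine h2.2 (mem_image.2 ⟨b, ?_, h7⟩)
            rw [hF, mem_filter]
            exact ⟨hb, he⟩
          unfold Pres at h3 ⊢
          rw [he] at h3 ⊢
          rw [fe]
          simp only [Equiv.Perm.mul_apply]
          rw [h3, Equiv.swap_apply_of_ne_of_ne h5 h6]
      · unfold Pres at h3 ⊢
        rw [fn _ _ he]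
        exact h3
  · rintro ⟨σ, y1⟩ hp ⟨τ, y2⟩ hq hpq
    rw [mem_coe, mem_product] at hp hq
    have hc1 : σ c.1 c.2.1 = c.2.2 := by
      have h1 := (mem_inter.1 hp.1).2
      simp only [Ev, mem_filter, mem_univ, true_and] at h1
      exact h1 c (mem_insert_self _ _)
    have hc2 : τ c.1 c.2.1 = c.2.2 := by
      have h1 := (mem_inter.1 hq.1).2
      simp only [Ev, mem_filter, mem_univ, true_and] at h1
      exact h1 c (mem_insert_self _ _)
    have h1 : f (σ, y1) c.1 = f (τ, y2) c.1 := by rw [hpq]
    rw [fe, fe] at h1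
    simp only at h1
    have h2 : y1 = y2 := by
      have := congrArg (fun g : Equiv.Perm (Fin r) => g c.2.1) h1
      simp only [Equiv.Perm.mul_apply] at this
      rw [hc1, hc2, Equiv.swap_apply_left, Equiv.swap_apply_left] at this
      exact this
    subst h2
    have h3 : σ c.1 = τ c.1 := mul_left_cancel h1
    have h4 : σ = τ := by
      funext e
      by_cases he : e = c.1
      · rw [he]; exact h3
      · have := congrFun hpq e
        rw [fn _ _ he, fn _ _ he] at this
        exact this
    rw [h4]

end Pool.Agent.Helper71.OD
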